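import Mathlib

namespace Pool.Agent.Results.MP_7d4b8e_co.Colour

/-- The unit arc of the circle `ℝ / lam ℤ` starting at `x`. -/
def arc (lam x : ℝ) : Set (AddCircle lam) := (fun t : ℝ => (t : AddCircle lam)) '' Set.Ico x (x + 1)

/-- `L` is the max load of the family `A`. -/
def IsLoad {X : Type} (A : Finset (Set X)) (L : ℕ) : Prop :=
  IsGreatest (Set.range fun p : X => {a | a ∈ A ∧ p ∈ a}.ncard) L

theorem arc_shift (lam x : ℝ) (k : ℤ) : arc lam (x + k * lam) = arc lam x := by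
  ext p
  constructor
  · rintro ⟨t, ⟨h1, h2⟩, rfl⟩
    refine ⟨t - k * lam, ⟨by linarith, by linarith⟩, ?_⟩
    simp only [AddCircle.coe_sub]
    rw [sub_eq_self, AddCircle.coe_eq_zero_iff]
    exact ⟨k, by simp⟩
  · rintro ⟨t, ⟨h1, h2⟩, rfl⟩
    refine ⟨t + k * lam, ⟨by linarith, by linarith⟩, ?_⟩
    simp only [AddCircle.coe_add]
    rw [add_eq_left, AddCircle.coe_eq_zero_iff]
    exact ⟨k, by simp⟩

theorem arc_norm {lam : ℝ} (h : 0 < lam) (x : ℝ) :
    ∃ y, 0 ≤ y ∧ y < lam ∧ arc lam x = arc lam y := by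
  refine ⟨toIcoMod h 0 x, (toIcoMod_mem_Ico' h x).1, (toIcoMod_mem_Ico' h x).2, ?_⟩
  rw [← arc_shift lam (toIcoMod h 0 x) (toIcoDiv h 0 x)]
  congr 1
  have := toIcoMod_add_toIcoDiv_zsmul h 0 x
  rw [zsmul_eq_mul] at this
  exact this.symm

theorem meet {lam : ℝ} (h : 1 ≤ lam) {x y : ℝ} (_hx : 0 ≤ x) (_hxy : x ≤ y) (_hy : y < lam)
    (hm : (arc lam x ∩ arc lam y).Nonempty) : y < x + 1 ∨ x + lam < y + 1 := by
  obtain ⟨p, ⟨s, ⟨s1, s2⟩, rfl⟩, ⟨t, ⟨t1, t2⟩, ht⟩⟩ := hm
  have : ((t - s : ℝ) : AddCircle lam) = 0 := by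
    simp only [AddCircle.coe_sub]
    exact sub_eq_zero.mpr ht
  rw [AddCircle.coe_eq_zero_iff] at this
  obtain ⟨k, hk⟩ := this
  rw [zsmul_eq_mul] at hk
  rcases le_or_gt k 0 with h0 | h0
  · left
    have : (k : ℝ) ≤ 0 := by exact_mod_cast h0
    nlinarith
  · right
    have : (1 : ℝ) ≤ k := by exact_mod_cast h0
    nlinarith

theorem core {lam : ℝ} (h : 1 ≤ lam) (S : Finset (Set (AddCircle lam)))
    (hS : ∀ a ∈ S, ∃ x, a = arc lam x) (L : ℕ) (hL : 0 < L) (hd : L ∣ S.card)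
    (hload : ∀ p, {a | a ∈ S ∧ p ∈ a}.ncard ≤ L) :
    ∃ c : S → Fin L, ∀ a b : S, a ≠ b → (a.1 ∩ b.1).Nonempty → c a ≠ c b := by
  classical
  have : ∀ a : S, ∃ y, 0 ≤ y ∧ y < lam ∧ a.1 = arc lam y := by
    intro a
    obtain ⟨x, hx⟩ := hS a.1 a.2
    obtain ⟨y, h1, h2, h3⟩ := arc_norm (by linarith) x
    exact ⟨y, h1, h2, hx.trans h3⟩
  choose s s1 s2 s3 using this
  let e0 := S.equivFin.symm
  let σ := Tuple.sort (fun i => s (e0 i))
  have hmono : Monotone ((fun i => s (e0 i)) ∘ σ) := Tuple.monotone_sort _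
  let e : Fin S.card ≃ S := σ.trans e0
  have hm : ∀ i j, i ≤ j → s (e i) ≤ s (e j) := fun i j hij => hmono hij
  have hcount : ∀ (p : AddCircle lam) (T : Finset (Fin S.card)), (∀ m ∈ T, p ∈ (e m).1) →
      T.card ≤ L := by
    intro p T hT
    refine le_trans ?_ (hload p)
    rw [← Set.ncard_coe_finset]
    refine Set.ncard_le_ncard_of_injOn (fun m => (e m).1) ?_ ?_ (S.finite_toSet.subset ?_)
    · intro m hm'; exact ⟨(e m).2, hT m hm'⟩
    · intro m _ m' _ hh; exact e.injective (Subtype.ext hh)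
    · intro a ha; exact ha.1
  have key : ∀ i j : Fin S.card, i < j → ((e i).1 ∩ (e j).1).Nonempty → i.val % L ≠ j.val % L := by
    intro i j hij hne hmod
    rw [s3, s3] at hne
    have hij' : i.val < j.val := hij
    have hdvd : L ∣ j.val - i.val := (Nat.modEq_iff_dvd' hij'.le).mp hmod
    have hj := j.isLt
    rcases meet h (s1 _) (hm i j hij.le) (s2 _) hne with h1 | h1
    · have := hcount (s (e j) : ℝ) (Finset.Icc i j) (by
        intro m hm'
        rw [Finset.mem_Icc] at hm'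
        rw [s3]
        exact ⟨s (e j), ⟨hm _ _ hm'.2, by linarith [hm _ _ hm'.1]⟩, rfl⟩)
      rw [Fin.card_Icc] at this
      have := Nat.le_of_dvd (by omega) hdvd
      omega
    · have := hcount (s (e i) : ℝ) (Finset.Iic i ∪ Finset.Ici j) (by
        intro m hm'
        rw [s3]
        rcases Finset.mem_union.mp hm' with hm' | hm'
        · rw [Finset.mem_Iic] at hm'
          exact ⟨s (e i), ⟨hm _ _ hm', by linarith [s1 (e m), s2 (e j)]⟩, rfl⟩
        · rw [Finset.mem_Ici] at hm'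
          refine ⟨s (e i) + lam, ⟨by linarith [s2 (e m), s1 (e i)], by linarith [hm _ _ hm']⟩, ?_⟩
          simp)
      rw [Finset.card_union_of_disjoint (by
        rw [Finset.disjoint_left]
        intro m h1 h2
        rw [Finset.mem_Iic] at h1
        rw [Finset.mem_Ici] at h2
        exact absurd (h2.trans h1) (not_le.mpr hij)), Fin.card_Iic, Fin.card_Ici] at this
      have h2 : L ∣ S.card - (j.val - i.val) := Nat.dvd_sub hd hdvd
      have := Nat.le_of_dvd (by omega) h2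
      omega
  refine ⟨fun a => ⟨(e.symm a).val % L, Nat.mod_lt _ hL⟩, fun a b hab hne hc => ?_⟩
  simp only [Fin.mk.injEq] at hc
  rcases lt_trichotomy (e.symm a) (e.symm b) with h1 | h1 | h1
  · exact key _ _ h1 (by simpa using hne) hc
  · exact hab (e.symm.injective h1)
  · exact key _ _ h1 (by simpa [Set.inter_comm] using hne) hc.symm

open Classical in
theorem result (lam : ℝ) (hlam : 2 ≤ lam) (A B : Finset (Set (AddCircle lam)))
    (hA : ∀ a ∈ A, ∃ x, a = arc lam x) (hB : ∀ b ∈ B, ∃ x, b = arc lam x)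
    (hAB : Disjoint A B) (L : ℕ) (hL : IsLoad A L) (hk : L ≤ B.card + 1)
    (hL' : IsLoad (A ∪ B) L) :
    ∃ c : A → Fin L, ∀ a b : A, a ≠ b → (a.1 ∩ b.1).Nonempty → c a ≠ c b := by
  rcases Nat.eq_zero_or_pos L with rfl | hpos
  · have hE : IsEmpty A := by
      refine ⟨fun a => ?_⟩
      obtain ⟨x, hx⟩ := hA a.1 a.2
      have h1 := hL.2 (Set.mem_range_self (x : AddCircle lam))
      rw [Nat.le_zero, Set.ncard_eq_zero (A.finite_toSet.subset (fun a ha => ha.1))] at h1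
      have : a.1 ∈ {a | a ∈ A ∧ (x : AddCircle lam) ∈ a} :=
        ⟨a.2, by rw [hx]; exact ⟨x, ⟨le_refl x, by linarith⟩, rfl⟩⟩
      rw [h1] at this
      exact this
    exact ⟨fun a => hE.elim a, fun a => hE.elim a⟩
  obtain ⟨j, hj1, hj2⟩ : ∃ j, j < L ∧ L ∣ A.card + j := by
    refine ⟨(L - A.card % L) % L, Nat.mod_lt _ hpos, ?_⟩
    apply Nat.dvd_of_mod_eq_zero
    rw [Nat.add_mod_mod, ← Nat.mod_add_mod, Nat.add_sub_cancel' (Nat.mod_lt _ hpos).le,
      Nat.mod_self]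
  obtain ⟨B', hB', hc⟩ := Finset.exists_subset_card_eq (s := B) (n := j) (by omega)
  obtain ⟨c, hc'⟩ := core (by linarith) (A ∪ B') (by
      intro a ha
      rcases Finset.mem_union.mp ha with h | h
      · exact hA a h
      · exact hB a (hB' h)) L hpos
    (by rw [Finset.card_union_of_disjoint (hAB.mono_right hB'), hc]; exact hj2) (by
      intro p
      refine le_trans ?_ (hL'.2 (Set.mem_range_self p))
      refine Set.ncard_le_ncard ?_ ((A ∪ B).finite_toSet.subset (fun a ha => ha.1))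
      intro a ha
      exact ⟨Finset.union_subset_union_right hB' ha.1, ha.2⟩)
  refine ⟨fun a => c ⟨a.1, Finset.mem_union_left _ a.2⟩, fun a b hab hne => hc' _ _ ?_ hne⟩
  intro h
  exact hab (Subtype.ext (by simpa using h))

end Pool.Agent.Results.MP_7d4b8e_co.Colour
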